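import Pool.Agent.Y338.BP.G

/-! Averages of the Moebius images of the Beurling transform over roots of unity: explicit linear
bounds for the powers of the transform. -/

set_option autoImplicit false

open MeasureTheory Filter Topology Set
open scoped SchwartzMap ENNReal

namespace Pool.Agent.Q258.BA

open Pool.Agent.TH55.PowA Pool.Agent.Y338.BP

/-- the averages of the `k`-th powers of roots of unity of order `N` against the `n`-th -/
noncomputable def cN (n N k : ℕ) : ℂ :=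
  (N : ℂ)⁻¹ * ∑ j ∈ Finset.range N,
    (Complex.exp (2 * (Real.pi : ℂ) * Complex.I / N) ^ j) ^ (N - n) *
      (Complex.exp (2 * (Real.pi : ℂ) * Complex.I / N) ^ j) ^ k

lemma norm_root (N : ℕ) : ‖Complex.exp (2 * (Real.pi : ℂ) * Complex.I / N)‖ = 1 := by
  rw [Complex.norm_exp]
  have h : (2 * (Real.pi : ℂ) * Complex.I / N).re = 0 := by
    have e : 2 * (Real.pi : ℂ) * Complex.I / N = ((2 * Real.pi / N : ℝ) : ℂ) * Complex.I := by
      push_cast; ring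
    rw [e, Complex.re_ofReal_mul, Complex.I_re, mul_zero]
  rw [h, Real.exp_zero]

lemma cN_eq {n N k : ℕ} (h0 : 0 < n) (hn : n < N) (hk : k < N) :
    cN n N k = if k = n then 1 else 0 := by
  have hN : N ≠ 0 := by omega
  have hNc : (N : ℂ) ≠ 0 := by exact_mod_cast hN
  have hp := Complex.isPrimitiveRoot_exp N hN
  unfold cN
  generalize Complex.exp (2 * (Real.pi : ℂ) * Complex.I / N) = w at hp ⊢
  have e : ∀ j, (w ^ j) ^ (N - n) * (w ^ j) ^ k = (w ^ (N - n + k)) ^ j := by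
    intro j
    rw [← pow_add, ← pow_mul, ← pow_mul, mul_comm]
  simp only [e]
  split_ifs with h
  · have : w ^ (N - n + k) = 1 := by
      rw [h, Nat.sub_add_cancel hn.le]; exact hp.pow_eq_one
    rw [this]
    simp [hNc]
  · have h1 : w ^ (N - n + k) ≠ 1 := by
      rw [Ne, hp.pow_eq_one_iff_dvd]
      rintro ⟨c, hc⟩
      rcases c with _ | _ | c
      · omega
      · omega
      · have : N * 2 ≤ N * (c + 1 + 1) := Nat.mul_le_mul_left _ (by omega)
        omega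
    have h2 := geom_sum_mul (w ^ (N - n + k)) N
    rw [← pow_mul, mul_comm (N - n + k) N, pow_mul, hp.pow_eq_one, one_pow, sub_self] at h2
    rw [(mul_eq_zero.1 h2).resolve_right (sub_ne_zero.2 h1), mul_zero]

lemma cN_norm (n N k : ℕ) : ‖cN n N k‖ ≤ 1 := by
  unfold cN
  rcases Nat.eq_zero_or_pos N with h | h
  · subst h; simp
  have hr := norm_root N
  generalize Complex.exp (2 * (Real.pi : ℂ) * Complex.I / N) = w at hr ⊢
  rw [norm_mul, norm_inv]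
  have h1 : ‖∑ j ∈ Finset.range N, (w ^ j) ^ (N - n) * (w ^ j) ^ k‖ ≤ N := by
    refine (norm_sum_le _ _).trans ?_
    have : ∀ j ∈ Finset.range N, ‖(w ^ j) ^ (N - n) * (w ^ j) ^ k‖ ≤ 1 := by
      intro j _
      rw [norm_mul, norm_pow, norm_pow, norm_pow, hr]
      simp [hr]
    refine (Finset.sum_le_sum this).trans ?_
    simp
  have h2 : ‖(N : ℂ)‖ = N := by simp
  rw [h2]
  have h3 : (0 : ℝ) < N := by exact_mod_cast h
  calc (N : ℝ)⁻¹ * ‖∑ j ∈ Finset.range N, (w ^ j) ^ (N - n) * (w ^ j) ^ k‖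
      ≤ (N : ℝ)⁻¹ * N := by gcongr
    _ = 1 := inv_mul_cancel₀ h3.ne'

/-- the `n`-th power of the transform -/
noncomputable abbrev Tk (f : 𝓢(ℂ, ℂ)) (k : ℕ) (z : ℂ) : ℂ := T (fun ξ => bs ξ ^ k) f z

lemma Tk_bound (f : 𝓢(ℂ, ℂ)) (k : ℕ) (z : ℂ) : ‖Tk f k z‖ ≤ ∫ ξ, ‖Ft f ξ‖ := by
  refine (norm_integral_le_integral_norm _).trans ?_
  refine integral_mono (T_integrand_int (adm_pow k) f z).norm (Ft_int f).norm fun ξ => ?_
  have h1 : ‖Complex.exp (2 * (Real.pi : ℂ) * Complex.I * ((sm z ξ : ℝ) : ℂ))‖ = 1 := norm_ex _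
  show ‖Complex.exp (2 * (Real.pi : ℂ) * Complex.I * ((sm z ξ : ℝ) : ℂ)) * (bs ξ ^ k * Ft f ξ)‖ ≤ _
  rw [norm_mul, h1, one_mul, norm_mul, norm_pow]
  calc ‖bs ξ‖ ^ k * ‖Ft f ξ‖ ≤ 1 * ‖Ft f ξ‖ := by
        gcongr; exact pow_le_one₀ (norm_nonneg _) (bs_norm_le ξ)
    _ = _ := one_mul _

/-- one Moebius image -/
noncomputable def Mo (f : 𝓢(ℂ, ℂ)) (ζ : ℂ) (z : ℂ) : ℂ :=
  ((1 - ‖ζ‖ ^ 2 : ℝ) : ℂ) * ∑' k : ℕ, ζ ^ k * Tk f k z - f z

/-- the average over the roots of unity -/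
noncomputable def AN (f : 𝓢(ℂ, ℂ)) (n N : ℕ) (r : ℝ) (z : ℂ) : ℂ :=
  (N : ℂ)⁻¹ * ∑ j ∈ Finset.range N,
    (Complex.exp (2 * (Real.pi : ℂ) * Complex.I / N) ^ j) ^ (N - n) *
      Mo f ((r : ℂ) * Complex.exp (2 * (Real.pi : ℂ) * Complex.I / N) ^ j) z

lemma norm_pt {r : ℝ} (h0 : 0 ≤ r) (N j : ℕ) :
    ‖(r : ℂ) * Complex.exp (2 * (Real.pi : ℂ) * Complex.I / N) ^ j‖ = r := by
  rw [norm_mul, norm_pow, norm_root, one_pow, mul_one, Complex.norm_real, Real.norm_of_nonneg h0]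

lemma Mo_meas (f : 𝓢(ℂ, ℂ)) (ζ : ℂ) (h : ‖ζ‖ < 1) :
    AEStronglyMeasurable (Mo f ζ) (volume : Measure ℂ) := by
  have hD : (((1 - ‖ζ‖ ^ 2 : ℝ)) : ℂ) ≠ 0 := by
    rw [Ne, Complex.ofReal_eq_zero]; exact (den_pos h).ne'
  have e : Mo f ζ = ζ • T (fun ξ => bs (Ae (-ζ) (neg_lt h) ξ)) f := by
    funext z
    unfold Mo
    rw [(hasSum_T ζ h f z).tsum_eq, Pi.smul_apply, smul_eq_mul, mul_div_cancel₀ _ hD]
    ring
  rw [e]
  exact (T_cont (adm_bs _ (neg_lt h)) f).aestronglyMeasurable.const_smul ζ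

lemma AN_norm {p : ℝ} (hp : 2 ≤ p) (f : 𝓢(ℂ, ℂ)) (n N : ℕ) (hN : 0 < N) {r : ℝ} (h0 : 0 ≤ r)
    (h1 : r < 1) :
    eLpNorm (AN f n N r) (ENNReal.ofReal p) volume
      ≤ ENNReal.ofReal (r * (p - 1)) * eLpNorm f (ENNReal.ofReal p) volume := by
  set w := Complex.exp (2 * (Real.pi : ℂ) * Complex.I / N) with hw
  have hwn : ‖w‖ = 1 := norm_root N
  have hP : 1 ≤ ENNReal.ofReal p := by
    rw [← ENNReal.ofReal_one]; exact ENNReal.ofReal_le_ofReal (by linarith)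
  have e : AN f n N r = (N : ℂ)⁻¹ • ∑ j ∈ Finset.range N,
      ((w ^ j) ^ (N - n)) • Mo f ((r : ℂ) * w ^ j) := by
    funext z
    simp only [AN, Pi.smul_apply, Finset.sum_apply, smul_eq_mul]
    rfl
  rw [e, eLpNorm_const_smul]
  have h2 : eLpNorm (∑ j ∈ Finset.range N, ((w ^ j) ^ (N - n)) • Mo f ((r : ℂ) * w ^ j))
      (ENNReal.ofReal p) volume ≤ ∑ j ∈ Finset.range N,
      ENNReal.ofReal (r * (p - 1)) * eLpNorm f (ENNReal.ofReal p) volume := by
    refine (eLpNorm_sum_le (fun j _ => ?_) hP).trans (Finset.sum_le_sum fun j _ => ?_)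
    · exact (Mo_meas f _ (by rw [norm_pt h0]; exact h1)).const_smul _
    · rw [eLpNorm_const_smul]
      have h3 : ‖(w ^ j) ^ (N - n)‖ₑ = 1 := by
        rw [← ofReal_norm, norm_pow, norm_pow, hwn, one_pow, one_pow, ENNReal.ofReal_one]
      rw [h3, one_mul]
      have h4 := gen_sharp hp ((r : ℂ) * w ^ j) (by rw [norm_pt h0]; exact h1) f
      rw [norm_pt h0] at h4
      refine le_trans (le_of_eq ?_) h4
      congr 1
      funext z
      simp only [Mo, Tk]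
      rw [hw, norm_pt h0]
  have h5 : ‖(N : ℂ)⁻¹‖ₑ = (N : ℝ≥0∞)⁻¹ := by
    rw [← ofReal_norm, norm_inv, Complex.norm_natCast, ENNReal.ofReal_inv_of_pos (by exact_mod_cast hN),
      ENNReal.ofReal_natCast]
  rw [h5]
  refine (mul_le_mul_right h2 _).trans (le_of_eq ?_)
  rw [Finset.sum_const, Finset.card_range, nsmul_eq_mul, ← mul_assoc,
    ENNReal.inv_mul_cancel (by exact_mod_cast hN.ne') (ENNReal.natCast_ne_top N), one_mul]

lemma AN_meas (f : 𝓢(ℂ, ℂ)) (n N : ℕ) {r : ℝ} (h0 : 0 ≤ r) (h1 : r < 1) :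
    AEStronglyMeasurable (AN f n N r) (volume : Measure ℂ) := by
  set w := Complex.exp (2 * (Real.pi : ℂ) * Complex.I / N) with hw
  have e : AN f n N r = (N : ℂ)⁻¹ • ∑ j ∈ Finset.range N,
      ((w ^ j) ^ (N - n)) • Mo f ((r : ℂ) * w ^ j) := by
    funext z
    simp only [AN, Pi.smul_apply, Finset.sum_apply, smul_eq_mul]
    rfl
  rw [e]
  refine AEStronglyMeasurable.const_smul (Finset.aestronglyMeasurable_sum _ fun j _ => ?_) _
  exact (Mo_meas f _ (by rw [norm_pt h0]; exact h1)).const_smul _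

lemma summ (f : 𝓢(ℂ, ℂ)) (ζ : ℂ) (h : ‖ζ‖ < 1) (z : ℂ) :
    Summable fun k : ℕ => ζ ^ k * Tk f k z := (hasSum_T ζ h f z).summable

/-- the average as a series -/
lemma AN_eq (f : 𝓢(ℂ, ℂ)) {n N : ℕ} (h0' : 0 < n) (hn : n < N) {r : ℝ} (h0 : 0 ≤ r) (h1 : r < 1)
    (z : ℂ) :
    AN f n N r z = ((1 - r ^ 2 : ℝ) : ℂ) * ∑' k : ℕ, cN n N k * ((r : ℂ) ^ k * Tk f k z) := by
  have hc0 : cN n N 0 = 0 := by
    rw [cN_eq h0' hn (by omega), if_neg (by omega)]
  unfold AN Mo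
  have hr := norm_root N
  have hpt : ∀ j, ‖(r : ℂ) * Complex.exp (2 * (Real.pi : ℂ) * Complex.I / N) ^ j‖ = r :=
    fun j => norm_pt h0 N j
  simp only [hpt]
  have hs : ∀ j, Summable fun k : ℕ =>
      ((r : ℂ) * Complex.exp (2 * (Real.pi : ℂ) * Complex.I / N) ^ j) ^ k * Tk f k z :=
    fun j => summ f _ (by rw [hpt]; exact h1) z
  unfold cN at hc0 ⊢
  generalize Complex.exp (2 * (Real.pi : ℂ) * Complex.I / N) = w at *
  have h2 : (N : ℂ)⁻¹ * ∑ j ∈ Finset.range N, (w ^ j) ^ (N - n) = 0 := by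
    simpa using hc0
  calc (N : ℂ)⁻¹ * ∑ j ∈ Finset.range N, (w ^ j) ^ (N - n) *
        (((1 - r ^ 2 : ℝ) : ℂ) * ∑' k : ℕ, ((r : ℂ) * w ^ j) ^ k * Tk f k z - f z)
      = ((1 - r ^ 2 : ℝ) : ℂ) * ((N : ℂ)⁻¹ * ∑ j ∈ Finset.range N, (w ^ j) ^ (N - n) *
        ∑' k : ℕ, ((r : ℂ) * w ^ j) ^ k * Tk f k z) -
        ((N : ℂ)⁻¹ * ∑ j ∈ Finset.range N, (w ^ j) ^ (N - n)) * f z := by
        simp only [mul_sub, Finset.sum_sub_distrib, Finset.mul_sum, Finset.sum_mul]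
        congr 1
        · refine Finset.sum_congr rfl fun j _ => ?_
          ring
        · refine Finset.sum_congr rfl fun j _ => ?_
          ring
    _ = ((1 - r ^ 2 : ℝ) : ℂ) * ((N : ℂ)⁻¹ * ∑ j ∈ Finset.range N, (w ^ j) ^ (N - n) *
        ∑' k : ℕ, ((r : ℂ) * w ^ j) ^ k * Tk f k z) := by rw [h2, zero_mul, sub_zero]
    _ = _ := by
        congr 1
        simp only [← tsum_mul_left]
        rw [← Summable.tsum_finsetSum (fun j _ => (hs j).mul_left _), ← tsum_mul_left]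
        refine tsum_congr fun k => ?_
        rw [mul_assoc, Finset.sum_mul]
        congr 1
        refine Finset.sum_congr rfl fun j _ => ?_
        rw [mul_pow]
        ring

lemma AN_lim (f : 𝓢(ℂ, ℂ)) {n : ℕ} (h0' : 0 < n) {r : ℝ} (h0 : 0 ≤ r) (h1 : r < 1) (z : ℂ) :
    Tendsto (fun N : ℕ => AN f n N r z) atTop
      (𝓝 (((1 - r ^ 2 : ℝ) : ℂ) * ((r : ℂ) ^ n * Tk f n z))) := by
  have hM : ∀ k, ‖(r : ℂ) ^ k * Tk f k z‖ ≤ r ^ k * ∫ ξ, ‖Ft f ξ‖ := by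
    intro k
    rw [norm_mul, norm_pow, Complex.norm_real, Real.norm_of_nonneg h0]
    gcongr
    exact Tk_bound f k z
  have ht : Tendsto (fun N : ℕ => ∑' k : ℕ, cN n N k * ((r : ℂ) ^ k * Tk f k z)) atTop
      (𝓝 (∑' k : ℕ, (if k = n then 1 else 0) * ((r : ℂ) ^ k * Tk f k z))) := by
    refine tendsto_tsum_of_dominated_convergence
      (bound := fun k => r ^ k * ∫ ξ, ‖Ft f ξ‖) ?_ ?_ ?_
    · exact (summable_geometric_of_lt_one h0 h1).mul_right _
    · intro k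
      refine Tendsto.congr' ?_ tendsto_const_nhds
      filter_upwards [eventually_gt_atTop k, eventually_gt_atTop n] with N hk hn
      rw [cN_eq h0' hn hk]
    · refine Eventually.of_forall fun N k => ?_
      rw [norm_mul]
      calc ‖cN n N k‖ * ‖(r : ℂ) ^ k * Tk f k z‖ ≤ 1 * (r ^ k * ∫ ξ, ‖Ft f ξ‖) := by
            gcongr
            · exact cN_norm n N k
            · exact hM k
        _ = _ := one_mul _
  have h2 : ∑' k : ℕ, (if k = n then 1 else 0) * ((r : ℂ) ^ k * Tk f k z)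
      = (r : ℂ) ^ n * Tk f n z := by
    rw [tsum_eq_single n]
    · simp
    · intro k hk
      simp [hk]
  rw [h2] at ht
  refine (ht.const_mul ((1 - r ^ 2 : ℝ) : ℂ)).congr' ?_
  filter_upwards [eventually_gt_atTop n] with N hn
  rw [AN_eq f h0' hn h0 h1 z]

/-- **The bound with a free radius.** -/
theorem radius {p : ℝ} (hp : 2 ≤ p) (f : 𝓢(ℂ, ℂ)) {n : ℕ} (hn : 0 < n) {r : ℝ} (h0 : 0 < r)
    (h1 : r < 1) :
    eLpNorm (Tk f n) (ENNReal.ofReal p) volume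
      ≤ ENNReal.ofReal ((p - 1) / ((1 - r ^ 2) * r ^ (n - 1))) *
        eLpNorm f (ENNReal.ofReal p) volume := by
  have h3 : 0 < 1 - r ^ 2 := by nlinarith
  have hc : (((1 - r ^ 2 : ℝ) : ℂ) * (r : ℂ) ^ n) = (((1 - r ^ 2) * r ^ n : ℝ) : ℂ) := by
    push_cast; ring
  have hpos : 0 < (1 - r ^ 2) * r ^ n := by positivity
  have key : eLpNorm ((((1 - r ^ 2) * r ^ n : ℝ) : ℂ) • Tk f n) (ENNReal.ofReal p) volume
      ≤ ENNReal.ofReal (r * (p - 1)) * eLpNorm f (ENNReal.ofReal p) volume := by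
    have h4 := Lp.eLpNorm_lim_le_liminf_eLpNorm (μ := (volume : Measure ℂ))
      (p := ENNReal.ofReal p) (f := fun N : ℕ => AN f n N r)
      (fun N => AN_meas f n N h0.le h1)
      ((((1 - r ^ 2) * r ^ n : ℝ) : ℂ) • Tk f n) (Eventually.of_forall fun z => by
        have := AN_lim f hn h0.le h1 z
        rw [← mul_assoc, hc] at this
        simpa [Pi.smul_apply, smul_eq_mul] using this)
    refine h4.trans ?_
    refine (liminf_le_liminf (v := fun _ : ℕ =>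
      ENNReal.ofReal (r * (p - 1)) * eLpNorm f (ENNReal.ofReal p) volume) ?_).trans
      (le_of_eq (liminf_const _))
    filter_upwards [eventually_gt_atTop 0] with N hN
    exact AN_norm hp f n N hN h0.le h1
  rw [eLpNorm_const_smul] at key
  have h5 : ‖(((1 - r ^ 2) * r ^ n : ℝ) : ℂ)‖ₑ = ENNReal.ofReal ((1 - r ^ 2) * r ^ n) := by
    rw [← ofReal_norm, Complex.norm_real, Real.norm_of_nonneg hpos.le]
  rw [h5] at key
  have h6 : eLpNorm (Tk f n) (ENNReal.ofReal p) volume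
      = ENNReal.ofReal ((1 - r ^ 2) * r ^ n)⁻¹ * (ENNReal.ofReal ((1 - r ^ 2) * r ^ n) *
        eLpNorm (Tk f n) (ENNReal.ofReal p) volume) := by
    rw [← mul_assoc, ← ENNReal.ofReal_mul (by positivity), inv_mul_cancel₀ hpos.ne',
      ENNReal.ofReal_one, one_mul]
  rw [h6]
  refine (mul_le_mul_right key _).trans (le_of_eq ?_)
  rw [← mul_assoc, ← ENNReal.ofReal_mul (by positivity)]
  congr 2
  obtain ⟨m, rfl⟩ : ∃ m, n = m + 1 := ⟨n - 1, by omega⟩
  rw [Nat.add_sub_cancel]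
  field_simp
  ring

/-- the constant -/
noncomputable def ga (n : ℕ) : ℝ :=
  ((n : ℝ) + 1) / 2 * (((n : ℝ) + 1) / ((n : ℝ) - 1)) ^ (((n : ℝ) - 1) / 2)

lemma ga_one : ga 1 = 1 := by
  unfold ga
  norm_num

lemma ga_pos {n : ℕ} (hn : 1 ≤ n) : 0 < ga n := by
  rcases hn.eq_or_lt with h | h
  · rw [← h, ga_one]; norm_num
  · have h2 : (1 : ℝ) < n := by exact_mod_cast h
    unfold ga
    have : 0 < (n : ℝ) - 1 := by linarith
    positivity

lemma ga_le {n : ℕ} (hn : 1 ≤ n) : ga n ≤ Real.exp 1 / 2 * (n + 1) := by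
  rcases hn.eq_or_lt with h | h
  · rw [← h, ga_one]
    have := Real.add_one_le_exp (1 : ℝ)
    push_cast
    linarith
  have h2 : (1 : ℝ) < n := by exact_mod_cast h
  have h3 : 0 < (n : ℝ) - 1 := by linarith
  unfold ga
  have h4 : ((n : ℝ) + 1) / ((n : ℝ) - 1) ≤ Real.exp (2 / ((n : ℝ) - 1)) := by
    refine le_trans (le_of_eq ?_) (Real.add_one_le_exp _)
    field_simp
    ring
  have h5 : (((n : ℝ) + 1) / ((n : ℝ) - 1)) ^ (((n : ℝ) - 1) / 2) ≤ Real.exp 1 := by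
    calc (((n : ℝ) + 1) / ((n : ℝ) - 1)) ^ (((n : ℝ) - 1) / 2)
        ≤ (Real.exp (2 / ((n : ℝ) - 1))) ^ (((n : ℝ) - 1) / 2) := by
          apply Real.rpow_le_rpow (by positivity) h4 (by positivity)
      _ = Real.exp 1 := by
          rw [← Real.exp_mul]
          congr 1
          field_simp
  nlinarith [Real.exp_pos 1]

/-- **The explicit bound.** -/
theorem linear {p : ℝ} (hp : 2 ≤ p) (f : 𝓢(ℂ, ℂ)) {n : ℕ} (hn : 1 ≤ n) :
    eLpNorm (Tk f n) (ENNReal.ofReal p) volume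
      ≤ ENNReal.ofReal (ga n * (p - 1)) * eLpNorm f (ENNReal.ofReal p) volume := by
  rcases hn.eq_or_lt with h | h
  · subst h
    rw [ga_one, one_mul]
    have e : Tk f 1 = T bs f := by
      funext z
      simp only [Tk, pow_one]
    rw [e]
    exact base' p hp f
  have h2 : (1 : ℝ) < n := by exact_mod_cast h
  have h3 : 0 < (n : ℝ) - 1 := by linarith
  set r : ℝ := Real.sqrt (((n : ℝ) - 1) / ((n : ℝ) + 1)) with hr
  have hr0 : 0 < r := Real.sqrt_pos.2 (by positivity)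
  have hr2 : r ^ 2 = ((n : ℝ) - 1) / ((n : ℝ) + 1) := Real.sq_sqrt (by positivity)
  have hr1 : r < 1 := by
    have : r ^ 2 < 1 := by
      rw [hr2, div_lt_one (by linarith)]; linarith
    nlinarith
  refine (radius hp f (by omega) hr0 hr1).trans (le_of_eq ?_)
  congr 2
  have h4 : 1 - r ^ 2 = 2 / ((n : ℝ) + 1) := by
    rw [hr2]; field_simp; ring
  have h5 : r ^ (n - 1) = (((n : ℝ) - 1) / ((n : ℝ) + 1)) ^ (((n : ℝ) - 1) / 2) := by
    rw [hr, Real.sqrt_eq_rpow, ← Real.rpow_natCast, ← Real.rpow_mul (by positivity)]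
    congr 1
    rw [Nat.cast_sub (by omega)]
    push_cast
    ring
  have h6 : (((n : ℝ) + 1) / ((n : ℝ) - 1)) ^ (((n : ℝ) - 1) / 2)
      = ((((n : ℝ) - 1) / ((n : ℝ) + 1)) ^ (((n : ℝ) - 1) / 2))⁻¹ := by
    rw [← Real.inv_rpow (by positivity), inv_div]
  unfold ga
  rw [h4, h5, h6]
  have h7 : 0 < (((n : ℝ) - 1) / ((n : ℝ) + 1)) ^ (((n : ℝ) - 1) / 2) := by positivity
  field_simp

end Pool.Agent.Q258.BA
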